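import Pool.Agent.Helper83.CB.Defs3

set_option autoImplicit false
set_option linter.unusedSectionVars false

open Filter Topology MeasureTheory

namespace Pool.Agent.Helper83.CB

section

variable {ι : Type} [Fintype ι] [DecidableEq ι]

/-- integer vectors -/
def pt_vec {ι : Type} (k : ι → ℤ) : ι → ℝ := fun i => (k i : ℝ)

theorem pt_per1 {W : Type*} (f : (ι → ℝ) → W) (hf : ∀ x μ, f (x + Pi.single μ 1) = f x)
    (μ : ι) (m : ℤ) : ∀ x, f (x + Pi.single μ (m : ℝ)) = f x := by
  induction m using Int.induction_on with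
  | zero => intro x; simp
  | succ n ih =>
    intro x
    have : x + Pi.single μ (((n : ℤ) + 1 : ℤ) : ℝ) =
        (x + Pi.single μ ((n : ℤ) : ℝ)) + Pi.single μ 1 := by
      rw [add_assoc, ← Pi.single_add]; push_cast; rfl
    rw [this, hf, ih]
  | pred n ih =>
    intro x
    have : (x + Pi.single μ ((-(n : ℤ) - 1 : ℤ) : ℝ)) + Pi.single μ 1 =
        x + Pi.single μ ((-(n : ℤ) : ℤ) : ℝ) := by
      rw [add_assoc, ← Pi.single_add]; push_cast; ring_nf
    rw [← hf, this, ih]

theorem pt_per {W : Type*} (f : (ι → ℝ) → W) (hf : ∀ x μ, f (x + Pi.single μ 1) = f x)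
    (k : ι → ℤ) (x : ι → ℝ) : f (x + pt_vec k) = f x := by
  have h : ∀ s : Finset ι, f (x + ∑ i ∈ s, Pi.single i (k i : ℝ)) = f x := by
    intro s
    induction s using Finset.induction with
    | empty => simp
    | insert i s hi ih =>
      rw [Finset.sum_insert hi, add_comm (Pi.single (M := fun _ => ℝ) i (k i : ℝ)), ← add_assoc,
        pt_per1 f hf, ih]
  have h2 : pt_vec k = ∑ i, Pi.single i (k i : ℝ) := (Finset.univ_sum_single (pt_vec k)).symm
  rw [h2]
  exact h _

/-- the index set -/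
noncomputable def pt_K (ι : Type) [Fintype ι] [DecidableEq ι] : Finset (ι → ℤ) :=
  Fintype.piFinset fun _ => Finset.Icc (-2 : ℤ) 2

theorem pt_cube_meas (k : ι → ℤ) :
    MeasurableSet (Set.pi Set.univ fun i => Set.Ico (k i : ℝ) (k i + 1)) :=
  MeasurableSet.univ_pi fun _ => measurableSet_Ico

theorem pt_unfold {W : Type*} [NormedAddCommGroup W] [NormedSpace ℝ W] (F : (ι → ℝ) → W)
    (hF : Integrable F) (h0 : ∀ x, (∃ i, x i < -2 ∨ 3 ≤ x i) → F x = 0) :
    ∫ x, F x = ∫ x in cube ι, ∑ k ∈ pt_K ι, F (x + pt_vec k) := by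
  let c : (ι → ℤ) → Set (ι → ℝ) := fun k => Set.pi Set.univ fun i => Set.Ico (k i : ℝ) (k i + 1)
  have hc : ∀ k, MeasurableSet (c k) := pt_cube_meas
  have h1 : ∫ x, F x = ∫ x in ⋃ k ∈ pt_K ι, c k, F x := by
    symm
    apply setIntegral_eq_integral_of_forall_compl_eq_zero
    intro x hx
    apply h0
    by_contra hcon
    push Not at hcon
    apply hx
    rw [Set.mem_iUnion₂]
    refine ⟨fun i => ⌊x i⌋, ?_, ?_⟩
    · rw [pt_K, Fintype.mem_piFinset]
      intro i
      obtain ⟨a, b⟩ := hcon i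
      rw [Finset.mem_Icc]
      constructor
      · exact Int.le_floor.2 (by exact_mod_cast a)
      · have : ⌊x i⌋ < 3 := Int.floor_lt.2 (by exact_mod_cast b)
        omega
    · intro i _
      exact ⟨Int.floor_le _, Int.lt_floor_add_one _⟩
  have h2 : ∫ x in ⋃ k ∈ pt_K ι, c k, F x = ∑ k ∈ pt_K ι, ∫ x in c k, F x := by
    apply integral_biUnion_finset
    · intro k _; exact hc k
    · intro k _ l _ hkl
      rw [Function.onFun, Set.disjoint_left]
      intro x hx hy
      apply hkl
      funext i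
      have a := hx i (Set.mem_univ i)
      have b := hy i (Set.mem_univ i)
      have a' : ⌊x i⌋ = k i := Int.floor_eq_iff.2 ⟨a.1, a.2⟩
      have b' : ⌊x i⌋ = l i := Int.floor_eq_iff.2 ⟨b.1, b.2⟩
      exact a'.symm.trans b'
    · intro k _; exact hF.integrableOn
  have h3 : ∀ k, ∫ x in c k, F x = ∫ x in cube ι, F (x + pt_vec k) := by
    intro k
    have h := (measurePreserving_add_right (volume : Measure (ι → ℝ)) (pt_vec k)).setIntegral_preimage_emb
      (measurableEmbedding_addRight (pt_vec k)) F (c k)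
    rw [← h]
    have : (fun x => x + pt_vec k) ⁻¹' (c k) = cube ι := by
      ext x
      simp only [c, cube, Set.mem_preimage, Set.mem_univ_pi, Set.mem_Ico, Pi.add_apply, pt_vec]
      refine forall_congr' fun i => ?_
      constructor
      · rintro ⟨a, b⟩; exact ⟨by linarith, by linarith⟩
      · rintro ⟨a, b⟩; exact ⟨by linarith, by linarith⟩
    rw [this]
  rw [h1, h2, Finset.sum_congr rfl fun k _ => h3 k, integral_finsetSum]
  intro k _
  exact (hF.comp_add_right (pt_vec k)).integrableOn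

/-- one-dimensional cut-off -/
noncomputable def pt_th (t : ℝ) : ℝ := Real.smoothTransition (t + 1) - Real.smoothTransition t

theorem pt_th_contDiff : ContDiff ℝ (⊤ : ℕ∞) pt_th := by
  unfold pt_th
  exact (Real.smoothTransition.contDiff.comp (contDiff_id.add contDiff_const)).sub
    Real.smoothTransition.contDiff

theorem pt_th_zero {t : ℝ} (h : t ≤ -1 ∨ 1 ≤ t) : pt_th t = 0 := by
  unfold pt_th
  rcases h with h | h
  · rw [Real.smoothTransition.zero_of_nonpos (by linarith),
      Real.smoothTransition.zero_of_nonpos (by linarith), sub_zero]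
  · rw [Real.smoothTransition.one_of_one_le (by linarith),
      Real.smoothTransition.one_of_one_le h, sub_self]

theorem pt_th_sum {t : ℝ} (h : -2 ≤ t) (h' : t ≤ 2) :
    ∑ m ∈ Finset.Icc (-2 : ℤ) 2, pt_th (t + m) = 1 := by
  have hI : Finset.Icc (-2 : ℤ) 2 = {-2, -1, 0, 1, 2} := by decide
  rw [hI]
  rw [Finset.sum_insert (by decide), Finset.sum_insert (by decide), Finset.sum_insert (by decide),
    Finset.sum_insert (by decide), Finset.sum_singleton]
  unfold pt_th
  have e1 : Real.smoothTransition (t + ((2 : ℤ) : ℝ) + 1) = 1 :=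
    Real.smoothTransition.one_of_one_le (by push_cast; linarith)
  have e2 : Real.smoothTransition (t + ((-2 : ℤ) : ℝ)) = 0 :=
    Real.smoothTransition.zero_of_nonpos (by push_cast; linarith)
  rw [e1, e2]
  push_cast
  ring_nf

/-- the cut-off -/
noncomputable def pt_chi (x : ι → ℝ) : ℝ := ∏ i, pt_th (x i)

theorem pt_chi_contDiff : ContDiff ℝ (⊤ : ℕ∞) (pt_chi (ι := ι)) := by
  unfold pt_chi
  apply contDiff_prod
  intro i _
  exact pt_th_contDiff.comp (contDiff_apply ℝ ℝ i)

theorem pt_chi_zero {x : ι → ℝ} (h : x ∉ Set.Icc (-1 : ι → ℝ) 1) : pt_chi x = 0 := by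
  have : ∃ i, x i ≤ -1 ∨ 1 ≤ x i := by
    by_contra hcon
    push Not at hcon
    apply h
    exact ⟨fun i => (hcon i).1.le, fun i => (hcon i).2.le⟩
  obtain ⟨i, hi⟩ := this
  exact Finset.prod_eq_zero (Finset.mem_univ i) (pt_th_zero hi)

theorem pt_chi_sum {x : ι → ℝ} (h : ∀ i, -2 ≤ x i ∧ x i ≤ 2) :
    ∑ k ∈ pt_K ι, pt_chi (x + pt_vec k) = 1 := by
  unfold pt_chi pt_K pt_vec
  simp only [Pi.add_apply]
  rw [← Finset.prod_univ_sum (fun _ : ι => Finset.Icc (-2 : ℤ) 2) fun i m => pt_th (x i + (m : ℝ))]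
  apply Finset.prod_eq_one
  intro i _
  exact pt_th_sum (h i).1 (h i).2

end

theorem st_PT : ST_PT := by
  intro ι _ _ Λ ω hω g hg hper
  let G : (ι → ℝ) → ℝ := fun x => g x * pt_chi x
  have hG : ContDiff ℝ (⊤ : ℕ∞) G := hg.mul pt_chi_contDiff
  have hGsupp : ∀ x, x ∉ Set.Icc (-1 : ι → ℝ) 1 → G x = 0 := by
    intro x hx
    simp only [G, pt_chi_zero hx, mul_zero]
  have hGc : HasCompactSupport G := HasCompactSupport.intro isCompact_Icc hGsupp
  have hts : tsupport G ⊆ Set.Icc (-1 : ι → ℝ) 1 := by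
    apply closure_minimal _ isClosed_Icc
    intro x hx
    by_contra hcon
    exact hx (hGsupp x hcon)
  have hcl := hω.closed G hG hGc
  obtain ⟨C, hC⟩ := hω.bdd
  have hdG : Continuous fun x => fderiv ℝ G x := hG.continuous_fderiv (by simp)
  have hpdc : ∀ μ, Continuous fun x => pd G x μ := by
    intro μ
    exact hdG.clm_apply continuous_const
  have hpd0 : ∀ x, x ∉ Set.Icc (-1 : ι → ℝ) 1 → ∀ μ, pd G x μ = 0 := by
    intro x hx μ
    have : fderiv ℝ G x = 0 := by
      by_contra hcon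
      exact hx (hts (support_fderiv_subset ℝ hcon))
    rw [pd, this]; rfl
  have hpdcs : ∀ μ, HasCompactSupport fun x => pd G x μ := fun μ =>
    HasCompactSupport.intro isCompact_Icc fun x hx => hpd0 x hx μ
  have hint : ∀ μ, Integrable fun x => pd G x μ • (Λ.e μ * ω x) := by
    intro μ
    have h1 : Integrable fun x => pd G x μ := (hpdc μ).integrable_of_hasCompactSupport (hpdcs μ)
    refine (h1.norm.mul_const (‖Λ.e μ‖ * C)).mono' ?_ ?_
    · exact (hpdc μ).aestronglyMeasurable.smul (hω.meas.const_mul (Λ.e μ))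
    · refine Eventually.of_forall fun x => ?_
      rw [norm_smul]
      apply mul_le_mul_of_nonneg_left _ (norm_nonneg _)
      exact (norm_mul_le _ _).trans (mul_le_mul_of_nonneg_left (hC x) (norm_nonneg _))
  rw [← hcl]
  apply Finset.sum_congr rfl
  intro μ _
  rw [pt_unfold _ (hint μ)]
  swap
  · rintro x ⟨i, hi⟩
    have : x ∉ Set.Icc (-1 : ι → ℝ) 1 := by
      intro hx
      have h1 := hx.1 i
      have h2 := hx.2 i
      simp only [Pi.neg_apply, Pi.one_apply] at h1 h2
      rcases hi with hi | hi <;> linarith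
    simp only [hpd0 x this μ, zero_smul]
  apply setIntegral_congr_fun (MeasurableSet.univ_pi fun _ => measurableSet_Ico)
  intro x hx
  simp only
  have e1 : ∀ k ∈ pt_K ι, pd G (x + pt_vec k) μ • (Λ.e μ * ω (x + pt_vec k)) =
      pd G (x + pt_vec k) μ • (Λ.e μ * ω x) := by
    intro k _
    rw [pt_per ω hω.per]
  rw [Finset.sum_congr rfl e1, ← Finset.sum_smul]
  congr 1
  -- derivative of the sum
  have e2 : (fun y => ∑ k ∈ pt_K ι, G (y + pt_vec k)) =ᶠ[𝓝 x] g := by
    have hopen : IsOpen (Set.pi Set.univ fun _ : ι => Set.Ioo (-2 : ℝ) 2) :=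
      isOpen_set_pi Set.finite_univ fun _ _ => isOpen_Ioo
    have hmem : x ∈ Set.pi Set.univ fun _ : ι => Set.Ioo (-2 : ℝ) 2 := by
      intro i _
      have := hx i (Set.mem_univ i)
      exact ⟨by linarith [this.1], by linarith [this.2]⟩
    filter_upwards [hopen.mem_nhds hmem] with y hy
    simp only [G]
    have e3 : ∀ k ∈ pt_K ι, g (y + pt_vec k) * pt_chi (y + pt_vec k) =
        g y * pt_chi (y + pt_vec k) := by
      intro k _
      rw [pt_per g hper]
    rw [Finset.sum_congr rfl e3, ← Finset.mul_sum, pt_chi_sum, mul_one]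
    intro i
    have := hy i (Set.mem_univ i)
    exact ⟨this.1.le, this.2.le⟩
  have e4 : fderiv ℝ (fun y => ∑ k ∈ pt_K ι, G (y + pt_vec k)) x =
      ∑ k ∈ pt_K ι, fderiv ℝ G (x + pt_vec k) := by
    rw [fderiv_fun_sum]
    · apply Finset.sum_congr rfl
      intro k _
      rw [fderiv_comp_add_right]
    · intro k _
      exact (hG.differentiable (by simp) _).comp x ((differentiableAt_id).add_const _)
  unfold pd
  rw [← e2.fderiv_eq, e4, sum_apply]

end Pool.Agent.Helper83.CB
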