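import Pool.Agent.Helper16.CB.PT

set_option autoImplicit false
set_option linter.unusedSectionVars false

open Filter Topology MeasureTheory

namespace Pool.Agent.Helper83.CB

/-- smooth periodic bumps -/
theorem tr_bump (s δ : ℝ) (hδ : 0 < δ) (hδ' : δ ≤ 1 / 2) : ∃ b : ℝ → ℝ,
    ContDiff ℝ (⊤ : ℕ∞) b ∧ (∀ t, b (t + 1) = b t) ∧ ∫ t in (0 : ℝ)..1, b t = 1 ∧
    ∀ t, b t ≠ 0 → ∃ m : ℤ, |t - s - m| < δ := by
  let f : ℝ → ℝ := fun t =>
    expNegInvGlue (Real.cos (2 * Real.pi * (t - s)) - Real.cos (2 * Real.pi * δ))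
  have hpi := Real.pi_pos
  have hf : ContDiff ℝ (⊤ : ℕ∞) f := by
    apply expNegInvGlue.contDiff.comp
    apply ContDiff.sub _ contDiff_const
    apply Real.contDiff_cos.comp
    fun_prop
  have hper : ∀ t, f (t + 1) = f t := by
    intro t
    simp only [f]
    have : 2 * Real.pi * (t + 1 - s) = 2 * Real.pi * (t - s) + 2 * Real.pi := by ring
    rw [this, Real.cos_add_two_pi]
  have hper' : Function.Periodic f 1 := hper
  have hc : 0 < ∫ t in (0 : ℝ)..1, f t := by
    have h1 : ∫ t in (0 : ℝ)..(0 + 1), f t = ∫ t in s..(s + 1), f t :=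
      hper'.intervalIntegral_add_eq 0 s
    rw [zero_add] at h1
    rw [h1]
    apply intervalIntegral.integral_pos (by linarith) hf.continuous.continuousOn
    · intro x _
      exact expNegInvGlue.nonneg _
    · refine ⟨s, ⟨le_rfl, by linarith⟩, ?_⟩
      apply expNegInvGlue.pos_of_pos
      simp only [sub_self, mul_zero, Real.cos_zero]
      have h2 : Real.cos (2 * Real.pi * δ) < Real.cos 0 := by
        apply Real.strictAntiOn_cos
        · exact ⟨le_rfl, hpi.le⟩
        · exact ⟨by positivity, by nlinarith⟩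
        · positivity
      rw [Real.cos_zero] at h2
      linarith
  refine ⟨fun t => (∫ t in (0 : ℝ)..1, f t)⁻¹ * f t, contDiff_const.mul hf, fun t => ?_, ?_, ?_⟩
  · simp only [hper]
  · rw [intervalIntegral.integral_const_mul, inv_mul_cancel₀ hc.ne']
  · intro t ht
    have h1 : f t ≠ 0 := right_ne_zero_of_mul ht
    have h2 : 0 < Real.cos (2 * Real.pi * (t - s)) - Real.cos (2 * Real.pi * δ) := by
      by_contra hcon
      exact h1 (expNegInvGlue.zero_of_nonpos (not_lt.1 hcon))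
    refine ⟨round (t - s), ?_⟩
    have h3 := abs_sub_round (t - s)
    have h4 : Real.cos (2 * Real.pi * (t - s)) =
        Real.cos (2 * Real.pi * |t - s - round (t - s)|) := by
      have e1 : 2 * Real.pi * |t - s - round (t - s)| =
          |2 * Real.pi * (t - s) - round (t - s) * (2 * Real.pi)| := by
        have : 2 * Real.pi * (t - s) - round (t - s) * (2 * Real.pi) =
          2 * Real.pi * (t - s - round (t - s)) := by ring
        rw [this, abs_mul, abs_of_pos (by positivity : (0 : ℝ) < 2 * Real.pi)]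
      rw [e1, Real.cos_abs, Real.cos_sub_int_mul_two_pi]
    rw [h4] at h2
    by_contra hcon
    push Not at hcon
    have h5 := Real.strictAntiOn_cos.antitoneOn (a := 2 * Real.pi * δ)
      (b := 2 * Real.pi * |t - s - round (t - s)|) ⟨by positivity, by nlinarith⟩
      ⟨by positivity, by nlinarith⟩ (by
        apply mul_le_mul_of_nonneg_left hcon (by positivity))
    linarith

/-- periodic primitives -/
theorem tr_prim (h : ℝ → ℝ) (hh : ContDiff ℝ (⊤ : ℕ∞) h) (hper : ∀ t, h (t + 1) = h t)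
    (h0 : ∫ t in (0 : ℝ)..1, h t = 0) : ∃ g : ℝ → ℝ, ContDiff ℝ (⊤ : ℕ∞) g ∧
    (∀ t, g (t + 1) = g t) ∧ ∀ t, HasDerivAt g (h t) t := by
  have hd : ∀ t, HasDerivAt (fun t => ∫ x in (0 : ℝ)..t, h x) (h t) t := fun t =>
    (hh.continuous.integral_hasStrictDerivAt 0 t).hasDerivAt
  refine ⟨fun t => ∫ x in (0 : ℝ)..t, h x, ?_, ?_, hd⟩
  · rw [contDiff_infty_iff_deriv]
    refine ⟨fun t => (hd t).differentiableAt, ?_⟩
    have : deriv (fun t => ∫ x in (0 : ℝ)..t, h x) = h := by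
      funext t
      exact (hd t).deriv
    rw [this]
    exact hh
  · intro t
    have hper' : Function.Periodic h 1 := hper
    have h1 : ∫ x in t..(t + 1), h x = ∫ x in (0 : ℝ)..(0 + 1), h x :=
      hper'.intervalIntegral_add_eq t 0
    rw [zero_add, h0] at h1
    have h2 := intervalIntegral.integral_add_adjacent_intervals
      (hh.continuous.intervalIntegrable (μ := volume) 0 t)
      (hh.continuous.intervalIntegrable (μ := volume) t (t + 1))
    simp only
    rw [← h2, h1, add_zero]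

section

variable {ι : Type} [Fintype ι] [DecidableEq ι]

theorem tr_cube_meas : MeasurableSet (cube ι) := MeasurableSet.univ_pi fun _ => measurableSet_Ico

theorem tr_cube_fin : volume (cube ι) < ⊤ := by
  apply lt_of_le_of_lt (measure_mono (t := Set.Icc (0 : ι → ℝ) 1) ?_)
  · exact isCompact_Icc.measure_lt_top
  · intro x hx
    exact ⟨fun i => (hx i (Set.mem_univ i)).1, fun i => (hx i (Set.mem_univ i)).2.le⟩

theorem tr_int {W : Type*} [NormedAddCommGroup W] {f : (ι → ℝ) → W}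
    (hf : AEStronglyMeasurable f volume) {C : ℝ} (hC : ∀ x, ‖f x‖ ≤ C) :
    IntegrableOn f (cube ι) :=
  Measure.integrableOn_of_bounded tr_cube_fin.ne hf (Eventually.of_forall hC)

/-- test functions of one variable -/
theorem tr_one (hPT : ST_PT) (Λ : Ext ι) (ω : (ι → ℝ) → (Λ.X →L[ℝ] Λ.X)) (hω : Good Λ ω) (ν : ι)
    (h : ℝ → ℝ) (hh : ContDiff ℝ (⊤ : ℕ∞) h) (hper : ∀ t, h (t + 1) = h t)
    (h0 : ∫ t in (0 : ℝ)..1, h t = 0) : ∫ x in cube ι, h (x ν) • (Λ.e ν * ω x) = 0 := by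
  obtain ⟨g, hg, hgp, hgd⟩ := tr_prim h hh hper h0
  have key := hPT ι Λ ω hω (fun x => g (x ν)) (hg.comp (contDiff_apply ℝ ℝ ν)) (by
    intro x μ
    by_cases hμ : μ = ν
    · subst hμ
      simp only [Pi.add_apply, Pi.single_eq_same]
      exact hgp _
    · simp only [Pi.add_apply]
      rw [Pi.single_eq_of_ne (Ne.symm hμ), add_zero])
  have hpd : ∀ x μ, pd (fun x : ι → ℝ => g (x ν)) x μ = if μ = ν then h (x ν) else 0 := by
    intro x μ
    have h1 : HasFDerivAt (fun x : ι → ℝ => g (x ν))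
        (h (x ν) • (ContinuousLinearMap.proj (R := ℝ) (φ := fun _ : ι => ℝ) ν)) x :=
      (hgd (x ν)).comp_hasFDerivAt x (hasFDerivAt_apply ν x)
    rw [pd, h1.fderiv]
    by_cases hμ : μ = ν
    · subst hμ
      simp
    · simp [hμ, Ne.symm hμ]
  rw [Finset.sum_eq_single ν] at key
  · simpa [hpd] using key
  · intro μ _ hμ
    simp [hpd, hμ]
  · intro hcon
    exact absurd (Finset.mem_univ ν) hcon

end

/-- left multiplication -/
noncomputable def tr_L {A : Type*} [NormedRing A] [NormedAlgebra ℝ A] (a : A) : A →L[ℝ] A :=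
  ContinuousLinearMap.mul ℝ A a

/-- right multiplication -/
noncomputable def tr_R {A : Type*} [NormedRing A] [NormedAlgebra ℝ A] (a : A) : A →L[ℝ] A :=
  (ContinuousLinearMap.mul ℝ A).flip a

theorem tr_L_apply {A : Type*} [NormedRing A] [NormedAlgebra ℝ A] (a w : A) :
    tr_L a w = a * w := rfl

theorem tr_R_apply {A : Type*} [NormedRing A] [NormedAlgebra ℝ A] (a w : A) :
    tr_R a w = w * a := rfl

theorem tr_cont_meas {ι : Type} [Fintype ι] (b : ℝ → ℝ) (hb : Continuous b) (ν : ι) :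
    AEStronglyMeasurable (fun x : ι → ℝ => b (x ν)) volume :=
  (hb.comp (continuous_apply ν)).aestronglyMeasurable

/-- periodic continuous functions are bounded -/
theorem tr_bdd (b : ℝ → ℝ) (hb : Continuous b) (hper : ∀ t, b (t + 1) = b t) :
    ∃ C : ℝ, ∀ t, ‖b t‖ ≤ C := by
  obtain ⟨C, hC⟩ := (isCompact_Icc (a := (0 : ℝ)) (b := 1)).exists_bound_of_continuousOn
    hb.continuousOn
  refine ⟨C, fun t => ?_⟩
  have hper' : Function.Periodic b 1 := hper
  have h1 : b (Int.fract t) = b t := by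
    have := hper'.sub_int_mul_eq ⌊t⌋ (x := t)
    rw [mul_one] at this
    exact this
  rw [← h1]
  exact hC _ ⟨Int.fract_nonneg t, (Int.fract_lt_one t).le⟩

theorem st_STRIP (hPT : ST_PT) : ST_STRIP := by
  intro ι _ _ Λ ω hω μ ν hμν hae
  obtain ⟨b, hb, hbp, hb1, hbs⟩ := tr_bump (1 / 2) (1 / 6) (by norm_num) (by norm_num)
  obtain ⟨C, hC⟩ := hω.bdd
  obtain ⟨B, hB⟩ := tr_bdd b hb.continuous hbp
  have hone := tr_one hPT Λ ω hω ν (fun t => 1 - b t) (contDiff_const.sub hb)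
    (by intro t; simp only [hbp]) (by
      rw [intervalIntegral.integral_sub (by simp) (hb.continuous.intervalIntegrable _ _), hb1]
      simp)
  let L2 : (Λ.X →L[ℝ] Λ.X) →L[ℝ] (Λ.X →L[ℝ] Λ.X) := tr_L (Λ.c μ) + tr_R (Λ.c μ)
  let L1 : (Λ.X →L[ℝ] Λ.X) →L[ℝ] (Λ.X →L[ℝ] Λ.X) :=
    (tr_L (Λ.e ν)).comp (tr_L (Λ.c μ) - tr_R (Λ.c μ))
  have hL12 : ∀ w, L1 w = -L2 (Λ.e ν * w) := by
    intro w
    have h1 : Λ.c μ * Λ.e ν = -(Λ.e ν * Λ.c μ) := by
      have := Λ.ce μ ν
      rw [if_neg hμν] at this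
      exact eq_neg_of_add_eq_zero_left this
    change Λ.e ν * (Λ.c μ * w - w * Λ.c μ) = -(Λ.c μ * (Λ.e ν * w) + Λ.e ν * w * Λ.c μ)
    rw [← mul_assoc (Λ.c μ), h1, mul_sub, neg_mul, mul_assoc, mul_assoc, neg_add, neg_neg,
      sub_eq_add_neg]
  have hi1 : IntegrableOn (fun x => (1 - b (x ν)) • (Λ.e ν * ω x)) (cube ι) := by
    refine tr_int (C := (1 + B) * (‖Λ.e ν‖ * C)) ?_ ?_
    · exact ((tr_cont_meas (fun t => 1 - b t) (by fun_prop (disch := exact hb.continuous)) ν)).smul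
        (hω.meas.const_mul _)
    · intro x
      rw [norm_smul]
      apply mul_le_mul _ _ (norm_nonneg _)
      · have := norm_nonneg (b (x ν))
        have := hB (x ν)
        linarith
      · calc ‖(1 : ℝ) - b (x ν)‖ ≤ ‖(1 : ℝ)‖ + ‖b (x ν)‖ := norm_sub_le _ _
          _ ≤ 1 + B := by rw [norm_one]; linarith [hB (x ν)]
      · exact (norm_mul_le _ _).trans (mul_le_mul_of_nonneg_left (hC x) (norm_nonneg _))
  have hi2 : IntegrableOn ω (cube ι) := tr_int hω.meas hC
  change L1 (∫ x in cube ι, ω x) = 0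
  rw [← ContinuousLinearMap.integral_comp_comm L1 hi2]
  have hstrip : ∀ᵐ x : ι → ℝ, L1 (ω x) = -L2 ((1 - b (x ν)) • (Λ.e ν * ω x)) := by
    filter_upwards [hae] with x hx
    by_cases hbx : b (x ν) = 0
    · rw [hbx, sub_zero, one_smul, hL12]
    · obtain ⟨m, hm⟩ := hbs _ hbx
      have hs : inStrip (x ν) := by
        unfold inStrip
        rw [abs_lt] at hm
        have hfr : Int.fract (x ν) = x ν - m := by
          rw [Int.fract_eq_iff]
          exact ⟨by linarith, by linarith, m, by ring⟩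
        rw [hfr]
        exact ⟨by linarith, by linarith⟩
      have h1 : L1 (ω x) = 0 := by
        change Λ.e ν * (Λ.c μ * ω x - ω x * Λ.c μ) = 0
        rw [hx hs, sub_self, mul_zero]
      have h2 : L2 ((1 - b (x ν)) • (Λ.e ν * ω x)) = (1 - b (x ν)) • L2 (Λ.e ν * ω x) :=
        L2.map_smul _ _
      rw [h2, ← neg_eq_iff_eq_neg.2 (hL12 (ω x)), h1]
      simp
  rw [setIntegral_congr_ae tr_cube_meas (hstrip.mono fun x hx _ => hx), integral_neg,
    ContinuousLinearMap.integral_comp_comm L2 hi1, hone]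
  simp

theorem st_TRANSG (hPT : ST_PT) : ST_TRANSG := by
  intro ι _ _ Λ t ω ω0 ω1 hω hω0 hω1 hc0 hc1 hδ
  obtain ⟨δ, hδ0, ha0, ha1⟩ := hδ
  have hmin : 0 < min δ (1 / 2) := lt_min hδ0 (by norm_num)
  obtain ⟨b0, hb0, hbp0, hb01, hbs0⟩ := tr_bump 0 (min δ (1 / 2)) hmin (min_le_right _ _)
  obtain ⟨b1, hb1, hbp1, hb11, hbs1⟩ := tr_bump (1 / 2) (min δ (1 / 2)) hmin (min_le_right _ _)
  obtain ⟨B0, hB0⟩ := tr_bdd b0 hb0.continuous hbp0
  obtain ⟨B1, hB1⟩ := tr_bdd b1 hb1.continuous hbp1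
  -- integrability
  have hint : ∀ (b : ℝ → ℝ) (B : ℝ) (η : (ι → ℝ) → (Λ.X →L[ℝ] Λ.X)), Continuous b →
      (∀ t, ‖b t‖ ≤ B) → Good Λ η →
      IntegrableOn (fun x => b (x t) • (Λ.e t * η x)) (cube ι) := by
    intro b B η hb hB hη
    obtain ⟨C, hC⟩ := hη.bdd
    refine tr_int (C := B * (‖Λ.e t‖ * C)) ?_ ?_
    · exact (tr_cont_meas b hb t).smul (hη.meas.const_mul _)
    · intro x
      rw [norm_smul]
      apply mul_le_mul (hB _) _ (norm_nonneg _)
      · exact (norm_nonneg _).trans (hB (x t))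
      · exact (norm_mul_le _ _).trans (mul_le_mul_of_nonneg_left (hC x) (norm_nonneg _))
  have hint' : ∀ η : (ι → ℝ) → (Λ.X →L[ℝ] Λ.X), Good Λ η → IntegrableOn η (cube ι) := by
    intro η hη
    obtain ⟨C, hC⟩ := hη.bdd
    exact tr_int hη.meas hC
  have hii : ∀ b : ℝ → ℝ, ContDiff ℝ (⊤ : ℕ∞) b → IntervalIntegrable b volume 0 1 :=
    fun b hb => hb.continuous.intervalIntegrable _ _
  -- step 2 and 3
  have hmean : ∀ (b : ℝ → ℝ) (B : ℝ) (η : (ι → ℝ) → (Λ.X →L[ℝ] Λ.X)), ContDiff ℝ (⊤ : ℕ∞) b →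
      (∀ t, b (t + 1) = b t) → ∫ t in (0 : ℝ)..1, b t = 1 → (∀ t, ‖b t‖ ≤ B) → Good Λ η →
      ∫ x in cube ι, b (x t) • (Λ.e t * η x) = Λ.e t * ∫ x in cube ι, η x := by
    intro b B η hb hbp hb1 hB hη
    have h1 := tr_one hPT Λ η hη t (fun t => b t - 1) (hb.sub contDiff_const)
      (by intro t; simp only [hbp]) (by
        rw [intervalIntegral.integral_sub (hii b hb) (by simp), hb1]
        simp)
    have h2 : ∀ x : ι → ℝ, (b (x t) - 1) • (Λ.e t * η x) =
        b (x t) • (Λ.e t * η x) - Λ.e t * η x := by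
      intro x; rw [sub_smul, one_smul]
    simp only [h2] at h1
    have h3 : IntegrableOn (fun x => Λ.e t * η x) (cube ι) := by
      have := (tr_L (Λ.e t)).integrable_comp (hint' η hη)
      exact this
    rw [integral_sub (hint b B η hb.continuous hB hη) h3, sub_eq_zero] at h1
    rw [h1]
    exact ContinuousLinearMap.integral_comp_comm (tr_L (Λ.e t)) (hint' η hη)
  -- periodic extension of the a.e. equalities
  have hext : ∀ (s : ℝ) (η : (ι → ℝ) → (Λ.X →L[ℝ] Λ.X)), Good Λ η →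
      (∀ᵐ x : ι → ℝ, |x t - s| < δ → ω x = η x) →
      ∀ᵐ x : ι → ℝ, ∀ m : ℤ, |x t - s - m| < δ → ω x = η x := by
    intro s η hη hae
    rw [ae_all_iff]
    intro m
    have hq := (measurePreserving_add_right (volume : Measure (ι → ℝ))
      (Pi.single t ((-m : ℤ) : ℝ))).quasiMeasurePreserving.ae hae
    filter_upwards [hq] with x hx hxm
    have h1 : ω (x + Pi.single t ((-m : ℤ) : ℝ)) = ω x := pt_per1 ω hω.per t (-m) x
    have h2 : η (x + Pi.single t ((-m : ℤ) : ℝ)) = η x := pt_per1 η hη.per t (-m) x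
    rw [← h1, ← h2]
    apply hx
    simp only [Pi.add_apply, Pi.single_eq_same]
    have : x t + ((-m : ℤ) : ℝ) - s = x t - s - m := by push_cast; ring
    rw [this]
    exact hxm
  have hcomp : ∀ (b : ℝ → ℝ) (s : ℝ) (η : (ι → ℝ) → (Λ.X →L[ℝ] Λ.X)), Good Λ η →
      (∀ t, b t ≠ 0 → ∃ m : ℤ, |t - s - m| < min δ (1 / 2)) →
      (∀ᵐ x : ι → ℝ, |x t - s| < δ → ω x = η x) →
      ∫ x in cube ι, b (x t) • (Λ.e t * η x) = ∫ x in cube ι, b (x t) • (Λ.e t * ω x) := by
    intro b s η hη hbs hae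
    apply setIntegral_congr_ae tr_cube_meas
    filter_upwards [hext s η hη hae] with x hx _
    by_cases hbx : b (x t) = 0
    · rw [hbx, zero_smul, zero_smul]
    · obtain ⟨m, hm⟩ := hbs _ hbx
      rw [hx m (hm.trans_le (min_le_left _ _))]
  have e1 := hmean b0 B0 ω0 hb0 hbp0 hb01 hB0 hω0
  have e2 := hmean b1 B1 ω1 hb1 hbp1 hb11 hB1 hω1
  have e3 := hcomp b0 0 ω0 hω0 hbs0 (by simpa using ha0)
  have e4 := hcomp b1 (1 / 2) ω1 hω1 hbs1 ha1
  have e5 := tr_one hPT Λ ω hω t (fun t => b0 t - b1 t) (hb0.sub hb1)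
    (by intro t; simp only [hbp0, hbp1]) (by
      rw [intervalIntegral.integral_sub (hii b0 hb0) (hii b1 hb1), hb01, hb11, sub_self])
  simp only [sub_smul] at e5
  rw [integral_sub (hint b0 B0 ω hb0.continuous hB0 hω) (hint b1 B1 ω hb1.continuous hB1 hω),
    sub_eq_zero, ← e3, ← e4, e1, e2] at e5
  -- commutation with the contraction
  have hcm : ∀ η : (ι → ℝ) → (Λ.X →L[ℝ] Λ.X), Good Λ η →
      (∀ᵐ x, Λ.c t * η x = η x * Λ.c t) →
      Λ.c t * (∫ x in cube ι, η x) = (∫ x in cube ι, η x) * Λ.c t := by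
    intro η hη hae
    have h1 := ContinuousLinearMap.integral_comp_comm (tr_L (Λ.c t) - tr_R (Λ.c t)) (hint' η hη)
    have h2 : ∫ x in cube ι, (tr_L (Λ.c t) - tr_R (Λ.c t)) (η x) = 0 := by
      rw [setIntegral_congr_ae tr_cube_meas (g := fun _ => 0)]
      · simp
      · filter_upwards [hae] with x hx _
        change Λ.c t * η x - η x * Λ.c t = 0
        rw [hx, sub_self]
    rw [h2] at h1
    exact (sub_eq_zero.1 h1.symm)
  set m0 := ∫ x in cube ι, ω0 x with hm0
  set m1 := ∫ x in cube ι, ω1 x with hm1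
  have f0 := hcm ω0 hω0 hc0
  have f1 := hcm ω1 hω1 hc1
  rw [← hm0] at f0
  rw [← hm1] at f1
  have hce := Λ.ce t t
  rw [if_pos rfl] at hce
  have g1 : Λ.e t * (m0 - m1) = 0 := by rw [mul_sub, e5, sub_self]
  have g2 : Λ.c t * (m0 - m1) = (m0 - m1) * Λ.c t := by rw [mul_sub, sub_mul, f0, f1]
  have g3 : m0 - m1 = 0 := by
    calc m0 - m1 = (Λ.c t * Λ.e t + Λ.e t * Λ.c t) * (m0 - m1) := by rw [hce, one_mul]
      _ = Λ.c t * (Λ.e t * (m0 - m1)) + Λ.e t * (Λ.c t * (m0 - m1)) := by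
          rw [add_mul, mul_assoc, mul_assoc]
      _ = 0 := by rw [g1, mul_zero, zero_add, g2, ← mul_assoc, g1, zero_mul]
  exact sub_eq_zero.1 g3

end Pool.Agent.Helper83.CB
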